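import Pool.Agent.Lib.MP_acafa7_al.F.IfaceC
import Pool.Agent.Lib.MP_acafa7_al.MS.H64.Sweep

/-! Corner sets. -/

namespace MSG.F4

open Classical

theorem stp_mono {V A : Type} [AddCommGroup A] {G : SimpleGraph V} {S S' : Set V} (h : S ⊆ S')
    {ω : V → V → V → A} {l l' : List V} {e : A} (hl : StpA G S ω l l' e) :
    StpA G S' ω l l' e := by
  cases hl with
  | ins u v x y hxy hy => exact StpA.ins u v x y hxy (h hy)
  | del u v x y hxy => exact StpA.del u v x y hxy
  | exp u v x y z h1 h2 h3 hy => exact StpA.exp u v x y z h1 h2 h3 (h hy)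
  | con u v x y z h1 h2 h3 => exact StpA.con u v x y z h1 h2 h3

theorem hom_mono {V A : Type} [AddCommGroup A] {G : SimpleGraph V} {S S' : Set V} (h : S ⊆ S')
    {ω : V → V → V → A} {l l' : List V} {e : A} (hl : HomA G S ω l l' e) :
    HomA G S' ω l l' e := by
  induction hl with
  | refl l => exact HomA.refl l
  | step h1 _ ih => exact HomA.step (stp_mono h h1) ih

theorem crn_st : CrnStatement := by
  intro V G C hC B _ _ _ hB B' c
  have hconn := hC.conn
  set R0 : ℕ := C * (3 * c + 4) + c with hR0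
  obtain ⟨n0, hn0⟩ := hC.ball R0
  refine ⟨c + R0, Fintype.card B * n0, fun x hx => ?_⟩
  have hd : ∀ (b : B) (u v : V), G.dist (b • u) (b • v) = G.dist u v := by
    intro b u v
    have := MSG.H64.dist_aut (G := G) hconn (MulAction.toPerm b) (fun x y => hB b x y) u v
    simpa using this
  -- walks
  choose al hal1 hal2 using fun b : B => MSG.H64.exists_geod hconn x (b • x)
  have hlen : ∀ b ∈ B', (al b).length ≤ c + 1 := by
    intro b hb
    rw [hal2]
    have := hx b hb
    omega
  have hnear : ∀ b ∈ B', ∀ v ∈ al b, G.dist x v ≤ c := by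
    intro b hb v hv
    have h1 := MSG.H64.dist_mem_lt (hal1 b) hv
    have h2 := hlen b hb
    omega
  -- the set
  have hfin : {v | ∃ b ∈ B', G.dist (b • x) v ≤ R0}.Finite := by
    have : {v | ∃ b ∈ B', G.dist (b • x) v ≤ R0} ⊆ ⋃ b : B, {v | G.dist (b • x) v ≤ R0} := by
      rintro v ⟨b, _, hv⟩
      exact Set.mem_iUnion.2 ⟨b, hv⟩
    exact (Set.finite_iUnion (fun b => (hn0 (b • x)).1)).subset this
  set U : Finset V := hfin.toFinset with hU
  have hmU : ∀ v, v ∈ U ↔ ∃ b ∈ B', G.dist (b • x) v ≤ R0 := by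
    intro v
    rw [hU, Set.Finite.mem_toFinset]
    rfl
  have hxal : ∀ b ∈ B', ∀ v ∈ al b, v ∈ U := by
    intro b hb v hv
    rw [hmU]
    refine ⟨1, B'.one_mem, ?_⟩
    rw [one_smul]
    have := hnear b hb v hv
    omega
  refine ⟨al, U, ?_, ?_, ?_, ?_, ?_, ?_⟩
  · rw [hmU]
    refine ⟨1, B'.one_mem, ?_⟩
    rw [one_smul, SimpleGraph.dist_self]
    omega
  · have h1 : U ⊆ Finset.univ.biUnion (fun b : B => (hn0 (b • x)).1.toFinset) := by
      intro v hv
      rw [hmU] at hv
      obtain ⟨b, _, hv⟩ := hv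
      rw [Finset.mem_biUnion]
      refine ⟨b, Finset.mem_univ _, ?_⟩
      rw [Set.Finite.mem_toFinset]
      exact hv
    calc U.card ≤ _ := Finset.card_le_card h1
      _ ≤ ∑ b : B, ((hn0 (b • x)).1.toFinset).card := Finset.card_biUnion_le
      _ ≤ ∑ _b : B, n0 := by
          refine Finset.sum_le_sum fun b _ => ?_
          rw [← Set.ncard_eq_toFinset_card _ (hn0 (b • x)).1]
          exact (hn0 (b • x)).2
      _ = Fintype.card B * n0 := by simp
  · intro b hb v hv
    rw [hmU] at hv ⊢
    obtain ⟨b', hb', hv⟩ := hv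
    refine ⟨b * b', B'.mul_mem hb hb', ?_⟩
    rw [mul_smul, hd]
    exact hv
  · intro v hv
    rw [hmU] at hv
    obtain ⟨b, hb, hv⟩ := hv
    have h1 := hconn.dist_triangle (u := x) (v := b • x) (w := v)
    have h2 := hx b hb
    omega
  · intro b hb
    exact ⟨hal1 b, hlen b hb, hxal b hb⟩
  · intro b hb b' hb'
    have hm : IsW G (b • x) ((b * b') • x) ((al b').map (b • ·)) := by
      have := MSG.H64.B.isW_map (G := G) (MulAction.toPerm b) (fun x y => hB b x y) (hal1 b')
      rw [mul_smul]
      exact this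
    have hc := MSG.H64.B.isW_cat (hal1 b) hm
    obtain ⟨S, hS⟩ := hC.geo x ((b * b') • x) _ _ (hal1 (b * b')) hc
    refine hom_mono ?_ hS.hom
    intro q hq
    obtain ⟨v, hv, hqv⟩ := hS.near q (by exact_mod_cast hq)
    have hle : (al (b * b')).length + (cat (al b) ((al b').map (b • ·))).length ≤ 3 * c + 4 := by
      have h1 := hlen _ (B'.mul_mem hb hb')
      have h2 := hlen _ hb
      have h3 := hlen _ hb'
      have h4 : (cat (al b) ((al b').map (b • ·))).length ≤
          (al b).length + ((al b').map (b • ·)).length := by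
        rw [cat, List.length_append]
        have := List.length_tail (l := (al b').map (b • ·))
        omega
      rw [List.length_map] at h4
      omega
    have hqv' : G.dist q v ≤ C * (3 * c + 4) := hqv.trans (Nat.mul_le_mul_left _ hle)
    have hv' : ∃ g ∈ B', G.dist (g • x) v ≤ c := by
      rw [List.mem_append] at hv
      rcases hv with hv | hv
      · refine ⟨1, B'.one_mem, ?_⟩
        rw [one_smul]
        exact hnear _ (B'.mul_mem hb hb') v hv
      · rcases MSG.H64.B.mem_cat hv with hv | hv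
        · refine ⟨1, B'.one_mem, ?_⟩
          rw [one_smul]
          exact hnear _ hb v hv
        · rw [List.mem_map] at hv
          obtain ⟨u, hu, rfl⟩ := hv
          refine ⟨b, hb, ?_⟩
          rw [hd]
          exact hnear _ hb' u hu
    obtain ⟨g, hg, hgv⟩ := hv'
    show q ∈ (U : Set V)
    rw [Finset.mem_coe, hmU]
    refine ⟨g, hg, ?_⟩
    have h1 := hconn.dist_triangle (u := g • x) (v := v) (w := q)
    rw [SimpleGraph.dist_comm (u := v)] at h1
    omega

end MSG.F4
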